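import Mathlib

/-! Project GE (helper875): good endomorphisms of free algebras are automorphisms
(MP_54c2ef_al). Statements of the parts. -/

set_option autoImplicit false

namespace W875.GE

universe u

open TensorProduct MulOpposite

/-- Any `r + 1` vectors in `S ^ r` are dependent for the right action of `S`. -/
def Dep (S : Type u) [Ring S] : Prop :=
  ∀ (r : ℕ) (v : Fin (r + 1) → Fin r → S), ∃ a : Fin (r + 1) → S, a ≠ 0 ∧
    ∀ i, ∑ j, v j i * a j = 0

/-- The value of a word. -/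
def wd {S : Type u} [Monoid S] {n : ℕ} (X : Fin n → S) (w : List (Fin n)) : S := (w.map X).prod

/-- Part S: a domain `S`, with the dependency property, embedded in matrices over a commutative
domain, with commuting families `X`, `Y` whose words of total length `d` are independent. -/
def PartS : Prop :=
  ∀ (K : Type u) [Field K] (n d : ℕ), ∃ (S : Type u) (_ : Ring S) (_ : Algebra K S)
    (C : Type u) (_ : CommRing C) (_ : Algebra K C)
    (q : ℕ) (ρ : S →ₐ[K] Matrix (Fin q) (Fin q) C) (X Y : Fin n → S),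
    IsDomain S ∧ IsDomain C ∧ Function.Injective ρ ∧ Dep S ∧ (∀ i j, X i * Y j = Y j * X i) ∧
    LinearIndependent K
      (fun p : {p : List (Fin n) × List (Fin n) // p.1.length + p.2.length = d} =>
        wd X p.1.1 * wd Y p.1.2)

/-- Part DN: the inverse power series of a matrix polynomial `P` over a domain `S` with the
dependency property is a polynomial of degree at most `s * e` as soon as the determinant of `P`
in matrices over `C[X]` is `1`. -/
def PartDN : Prop :=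
  ∀ (S : Type u) [Ring S] [IsDomain S] (_ : Dep S) (C : Type u) [CommRing C]
    (q : ℕ) (ρ : S →+* Matrix (Fin q) (Fin q) C) (_ : Function.Injective ρ)
    (s e : ℕ) (P G : ℕ → Matrix (Fin s) (Fin s) S) (_ : P 0 = 1) (_ : ∀ l, e < l → P l = 0)
    (_ : G 0 = 1) (_ : ∀ k, ∑ l ∈ Finset.range (k + 2), P l * G (k + 1 - l) = 0)
    (_ : Matrix.det (Matrix.of fun (i j : Fin s × Fin q) =>
      ∑ l ∈ Finset.range (e + 1), Polynomial.monomial l (ρ (P l i.1 j.1) i.2 j.2)) = 1),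
    ∀ k, s * e < k → G k = 0

section FA

variable (K : Type u) [Field K] (n : ℕ)

/-- The free algebra. -/
abbrev FA : Type u := FreeAlgebra K (Fin n)

/-- The enveloping algebra `A ⊗ Aᵒᵖ`. -/
abbrev RR : Type u := FA K n ⊗[K] (FA K n)ᵐᵒᵖ

/-- The span of the words of length at least `m`: the power `I ^ m` of the augmentation ideal. -/
def Ord (m : ℕ) : Submodule K (FA K n) :=
  Submodule.span K {a | ∃ w : List (Fin n), m ≤ w.length ∧ a = wd (FreeAlgebra.ι K) w}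

/-- The augmentation. -/
def eps : FA K n →ₐ[K] K := FreeAlgebra.lift K (fun _ => (0 : K))

variable {K n}

/-- The universal double derivations. -/
structure IsD (d : Fin n → FA K n →ₗ[K] RR K n) : Prop where
  ι : ∀ i j, d i (FreeAlgebra.ι K j) = if i = j then 1 else 0
  mul : ∀ i a b, d i (a * b) = ((1 : FA K n) ⊗ₜ[K] op b) * d i a
    + (a ⊗ₜ[K] (1 : (FA K n)ᵐᵒᵖ)) * d i b

/-- The Jacobian matrix. -/
def Jac (d : Fin n → FA K n →ₗ[K] RR K n) (φ : FA K n →ₐ[K] FA K n) :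
    Matrix (Fin n) (Fin n) (RR K n) := Matrix.of fun j i => d i (φ (FreeAlgebra.ι K j))

/-- The homogeneous part of degree `k` of `A ⊗ Aᵒᵖ`. -/
def Hmg (k : ℕ) : Submodule K (RR K n) :=
  Submodule.span K {z | ∃ u v : List (Fin n), u.length + v.length = k ∧
    z = wd (FreeAlgebra.ι K) u ⊗ₜ[K] op (wd (FreeAlgebra.ι K) v)}

/-- `θ` is congruent to the identity modulo `I ^ 2` and a limit of automorphisms. -/
structure Approx (θ : FA K n →ₐ[K] FA K n) : Prop where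
  one : ∀ i, θ (FreeAlgebra.ι K i) - FreeAlgebra.ι K i ∈ Ord K n 2
  lim : ∀ m, ∃ α : FA K n ≃ₐ[K] FA K n, ∀ i, α (FreeAlgebra.ι K i) - θ (FreeAlgebra.ι K i)
    ∈ Ord K n m

end FA

/-- Part D: existence of the double derivations. -/
def PartD : Prop := ∀ (K : Type u) [Field K] (n : ℕ),
  ∃ d : Fin n → FA K n →ₗ[K] RR K n, IsD d

/-- Part D2: automorphisms have invertible Jacobian matrices. -/
def PartD2 : Prop := ∀ (K : Type u) [Field K] (n : ℕ) (d : Fin n → FA K n →ₗ[K] RR K n)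
  (_ : IsD d) (α : FA K n ≃ₐ[K] FA K n), IsUnit (Jac d α.toAlgHom)

/-- Part G: the grading of `A ⊗ Aᵒᵖ`. -/
def PartG : Prop := ∀ (K : Type u) [Field K] (n : ℕ),
  ∃ c : ℕ → RR K n →ₗ[K] RR K n, (∀ k z, c k z ∈ Hmg k) ∧
    (∀ z, ∃ N, (∀ k, N < k → c k z = 0) ∧ z = ∑ k ∈ Finset.range (N + 1), c k z) ∧
    (∀ k z z', c k (z * z') = ∑ l ∈ Finset.range (k + 1), c l z * c (k - l) z') ∧
    (∀ k, ∀ z ∈ Hmg (K := K) (n := n) k, c k z = z) ∧
    (∀ k l, k ≠ l → ∀ z ∈ Hmg (K := K) (n := n) l, c k z = 0)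

/-- Part J1: a determinant. (From Part D2.) -/
def PartJ1 : Prop := ∀ (K : Type u) [Field K] (n : ℕ) (d : Fin n → FA K n →ₗ[K] RR K n)
  (_ : IsD d) (θ : FA K n →ₐ[K] FA K n) (_ : Approx θ)
  (C : Type u) [CommRing C] [IsDomain C] [Algebra K C] (q : ℕ)
  (Ψ : RR K n →ₐ[K] Matrix (Fin q) (Fin q) (Polynomial C)) (X Y : Fin n → Matrix (Fin q) (Fin q) C)
  (_ : ∀ i, Ψ (FreeAlgebra.ι K i ⊗ₜ[K] 1) = (X i).map (fun c => Polynomial.monomial 1 c))
  (_ : ∀ i, Ψ (1 ⊗ₜ[K] op (FreeAlgebra.ι K i)) = (Y i).map (fun c => Polynomial.monomial 1 c)),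
  Matrix.det (Matrix.of fun (i j : Fin n × Fin q) => Ψ (Jac d θ i.1 j.1) i.2 j.2) = 1

/-- Part J: the Jacobian matrix of a limit of automorphisms is invertible. (From Parts S, DN,
J1, G.) -/
def PartJ : Prop := ∀ (K : Type u) [Field K] (n : ℕ) (d : Fin n → FA K n →ₗ[K] RR K n)
  (_ : IsD d) (θ : FA K n →ₐ[K] FA K n) (_ : Approx θ), IsUnit (Jac d θ)

/-- Part Co: the derivations dual to `θ(x₁), …, θ(xₙ)`. -/
def PartCo : Prop := ∀ (K : Type u) [Field K] (n : ℕ) (d : Fin n → FA K n →ₗ[K] RR K n)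
  (_ : IsD d) (θ : FA K n →ₐ[K] FA K n) (_ : ∀ i, eps K n (θ (FreeAlgebra.ι K i)) = 0)
  (_ : IsUnit (Jac d θ)),
  ∃ D : Fin n → FA K n →ₗ[K] FA K n ⊗[K] FA K n,
    (∀ i k, (TensorProduct.assoc K (FA K n) (FA K n) (FA K n)).toLinearMap ∘ₗ
      (D k).rTensor (FA K n) ∘ₗ D i = (D i).lTensor (FA K n) ∘ₗ D k) ∧
    (∀ a, a = algebraMap K (FA K n) (eps K n a) +
      ∑ j, TensorProduct.rid K (FA K n) ((eps K n).toLinearMap.lTensor (FA K n) (D j a))
        * θ (FreeAlgebra.ι K j)) ∧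
    (∀ a, a = algebraMap K (FA K n) (eps K n a) +
      ∑ j, θ (FreeAlgebra.ι K j)
        * TensorProduct.lid K (FA K n) ((eps K n).toLinearMap.rTensor (FA K n) (D j a)))

/-- Part Fin: finiteness for coassociative families. -/
def PartFin : Prop := ∀ (K : Type u) [Field K] (A : Type u) [AddCommGroup A] [Module K A] (n : ℕ)
  (D : Fin n → A →ₗ[K] A ⊗[K] A)
  (_ : ∀ i k, (TensorProduct.assoc K A A A).toLinearMap ∘ₗ (D k).rTensor A ∘ₗ D i =
    (D i).lTensor A ∘ₗ D k)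
  (F : Finset A),
  ∃ (r : ℕ) (v : Fin r → A) (q : Fin n → Fin r → Fin r → A), LinearIndependent K v ∧
    (∀ a ∈ F, a ∈ Submodule.span K (Set.range v)) ∧
    ∀ j k, D j (v k) = ∑ l, v l ⊗ₜ[K] q j k l

/-- Part R: the rational representation. -/
def PartR : Prop := ∀ (K : Type u) [Field K] (n : ℕ) (θ : FA K n →ₐ[K] FA K n)
  (_ : ∀ i, eps K n (θ (FreeAlgebra.ι K i)) = 0)
  (D : Fin n → FA K n →ₗ[K] FA K n ⊗[K] FA K n)
  (_ : ∀ i k, (TensorProduct.assoc K (FA K n) (FA K n) (FA K n)).toLinearMap ∘ₗ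
      (D k).rTensor (FA K n) ∘ₗ D i = (D i).lTensor (FA K n) ∘ₗ D k)
  (_ : ∀ a, a = algebraMap K (FA K n) (eps K n a) +
      ∑ j, TensorProduct.rid K (FA K n) ((eps K n).toLinearMap.lTensor (FA K n) (D j a))
        * θ (FreeAlgebra.ι K j))
  (_ : ∀ a, a = algebraMap K (FA K n) (eps K n a) +
      ∑ j, θ (FreeAlgebra.ι K j)
        * TensorProduct.lid K (FA K n) ((eps K n).toLinearMap.rTensor (FA K n) (D j a)))
  (r : ℕ) (v : Fin r → FA K n) (q : Fin n → Fin r → Fin r → FA K n)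
  (_ : LinearIndependent K v)
  (_ : ∀ i, FreeAlgebra.ι K i ∈ Submodule.span K (Set.range v))
  (_ : ∀ j k, D j (v k) = ∑ l, v l ⊗ₜ[K] q j k l),
  ∃ (M : Fin n → Matrix (Fin r) (Fin r) K) (T : Matrix (Fin r) (Fin r) (FA K n)),
    (1 - ∑ j, (M j).map (fun c => c • θ (FreeAlgebra.ι K j))) * T = 1 ∧
    ((∃ N : ℕ, ∀ w : List (Fin n), w.length = N → wd M w = 0) →
      ∀ i, FreeAlgebra.ι K i ∈ θ.range)

/-- Part N1: a determinant. -/
def PartN1 : Prop := ∀ (K : Type u) [Field K] (n : ℕ) (θ : FA K n →ₐ[K] FA K n) (_ : Approx θ)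
  (r : ℕ) (M : Fin n → Matrix (Fin r) (Fin r) K) (T : Matrix (Fin r) (Fin r) (FA K n))
  (_ : (1 - ∑ j, (M j).map (fun c => c • θ (FreeAlgebra.ι K j))) * T = 1)
  (C : Type u) [CommRing C] [IsDomain C] [Algebra K C] (q : ℕ)
  (Z : Fin n → Matrix (Fin q) (Fin q) C),
  Matrix.det (Matrix.of fun (i j : Fin r × Fin q) => (if i = j then (1 : Polynomial C) else 0)
    - ∑ k, Polynomial.monomial 1 (algebraMap K C (M k i.1 j.1) * Z k i.2 j.2)) = 1

/-- Part N: nilpotency of the representation. (From Parts S, DN, N1.) -/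
def PartN : Prop := ∀ (K : Type u) [Field K] (n : ℕ) (θ : FA K n →ₐ[K] FA K n) (_ : Approx θ)
  (r : ℕ) (M : Fin n → Matrix (Fin r) (Fin r) K) (T : Matrix (Fin r) (Fin r) (FA K n))
  (_ : (1 - ∑ j, (M j).map (fun c => c • θ (FreeAlgebra.ι K j))) * T = 1),
  ∃ N : ℕ, ∀ w : List (Fin n), w.length = N → wd M w = 0

end W875.GE
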